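import Pool.Agent.helper53.AU.SpecG3

/-!
# Project au, module M3
-/

namespace Pool.Agent.helper53.AU

open scoped Classical

lemma M3_orbstab (L Ω : Type) [Group L] [MulAction L Ω] (α : Ω) :
    Nat.card (MulAction.orbit L α) * Nat.card (MulAction.stabilizer L α) = Nat.card L := by
  have h := MulAction.index_stabilizer L α
  rw [← Subgroup.card_mul_index (MulAction.stabilizer L α), h, mul_comm]
  rfl

/-- a nonabelian simple group of even order has no cyclic subgroup of odd index -/
lemma M3_cyc (hTC : TC_stmt) (E : Type) [Group E] [Finite E] (hs : NASimple E)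
    (he : Even (Nat.card E)) (B : Subgroup E) (hB : IsCyclic B) (hi : ¬ 2 ∣ B.index) : False := by
  have := hs.1
  obtain ⟨P0⟩ : Nonempty (Sylow 2 B) := inferInstance
  have hP0c : IsCyclic (P0 : Subgroup B) := inferInstance
  have hinj : Function.Injective B.subtype := Subgroup.subtype_injective B
  have hpg : IsPGroup 2 ((P0 : Subgroup B).map B.subtype) := P0.2.map _
  have hidx : ¬ 2 ∣ ((P0 : Subgroup B).map B.subtype).index := by
    rw [Subgroup.index_map_subtype]
    intro h
    rcases (Nat.Prime.dvd_mul Nat.prime_two).1 h with h | h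
    · exact P0.not_dvd_index h
    · exact hi h
  let P : Sylow 2 E := hpg.toSylow hidx
  have hPc : IsCyclic (P : Subgroup E) := by
    have e := ((P0 : Subgroup B).equivMapOfInjective B.subtype hinj)
    exact isCyclic_of_surjective e.toMonoidHom e.surjective
  obtain ⟨N, hN, hodd, hind⟩ := hTC E P hPc
  rcases hN.eq_bot_or_eq_top with h | h
  · subst h
    rw [Subgroup.index_bot] at hind
    have hPt : (P : Subgroup E) = ⊤ := Subgroup.eq_top_of_card_eq _ hind.symm
    obtain ⟨a, b, hab⟩ := hs.2
    apply hab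
    have ha : a ∈ (P : Subgroup E) := by rw [hPt]; trivial
    have hb : b ∈ (P : Subgroup E) := by rw [hPt]; trivial
    have : IsMulCommutative (P : Subgroup E) := hPc.isMulCommutative
    have := mul_comm' (⟨a, ha⟩ : (P : Subgroup E)) ⟨b, hb⟩
    exact congrArg Subtype.val this
  · subst h
    rw [Subgroup.card_top] at hodd
    exact (Nat.not_even_iff_odd.2 hodd) he

/-- `ThreeCyc` passes to subgroups -/
lemma M3_threeCyc (L : Type) [Group L] [Finite L] (H : Subgroup L) (hH : ThreeCyc H)
    (E : Type) [Group E] (f : E →* L) (hf : Function.Injective f) (K : Subgroup E)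
    (hK : ∀ x ∈ K, f x ∈ H) : ThreeCyc K := by
  have : Finite E := Finite.of_injective f hf
  obtain ⟨P, c, hPH, hcH, hP3, hnorm, hc, hgen⟩ := hH
  have hN : (P.subgroupOf H).Normal := by
    constructor
    rintro ⟨n, hn⟩ hn' ⟨g, hg⟩
    rw [Subgroup.mem_subgroupOf] at hn' ⊢
    exact hnorm g hg n hn'
  let c' : H := ⟨c, hcH⟩
  let π : H →* H ⧸ (P.subgroupOf H) := QuotientGroup.mk' _
  have hQgen : ∀ y : H ⧸ (P.subgroupOf H), y ∈ Subgroup.zpowers (π c') := by
    intro y
    obtain ⟨⟨x, hx⟩, rfl⟩ := QuotientGroup.mk'_surjective _ y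
    obtain ⟨p, hp, n, hxn⟩ := hgen x hx
    refine ⟨n, ?_⟩
    have h1 : (⟨x, hx⟩ : H) = ⟨p, hPH hp⟩ * c' ^ n := by
      ext; simpa [c'] using hxn
    show (π c') ^ (n : ℤ) = π ⟨x, hx⟩
    rw [h1, map_mul, map_pow]
    have h2 : π ⟨p, hPH hp⟩ = 1 := by
      apply (QuotientGroup.eq_one_iff _).2
      rw [Subgroup.mem_subgroupOf]; exact hp
    rw [h2, one_mul, zpow_natCast]
  have hQcyc : IsCyclic (H ⧸ (P.subgroupOf H)) := ⟨⟨π c', hQgen⟩⟩
  have hQcard : ¬ 3 ∣ Nat.card (H ⧸ (P.subgroupOf H)) := by
    intro h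
    apply hc
    have h1 : Nat.card (H ⧸ (P.subgroupOf H)) = orderOf (π c') := by
      rw [← Nat.card_zpowers]
      have : Subgroup.zpowers (π c') = ⊤ := by
        rw [eq_top_iff]; intro y _; exact hQgen y
      rw [this, Subgroup.card_top]
    have h2 : orderOf (π c') ∣ orderOf c' := orderOf_map_dvd π c'
    have h3 : orderOf c' = orderOf c := by
      rw [← Subgroup.orderOf_coe]
    rw [← h3]
    exact (h1 ▸ h).trans h2
  let g : K →* H := (f.comp K.subtype).codRestrict H (fun x => hK x x.2)
  have hg : Function.Injective g := by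
    intro x y hxy
    have : f x = f y := congrArg Subtype.val hxy
    exact Subtype.ext (hf this)
  let φ : K →* H ⧸ (P.subgroupOf H) := π.comp g
  let N : Subgroup K := φ.ker
  have hN3 : IsPGroup 3 N := by
    intro x
    have hx : (g x : L) ∈ P := by
      have := x.2
      rw [MonoidHom.mem_ker] at this
      have h1 : π (g x) = 1 := this
      have h2 := (QuotientGroup.eq_one_iff _).1 h1
      rw [Subgroup.mem_subgroupOf] at h2
      exact h2
    obtain ⟨k, hk⟩ := hP3 ⟨_, hx⟩
    refine ⟨k, ?_⟩
    have hk' : (g x : L) ^ (3 ^ k) = 1 := by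
      have := congrArg Subtype.val hk
      simpa using this
    have h3 : g ((x : K) ^ (3 ^ k)) = 1 := by
      ext; rw [map_pow]; simpa using hk'
    have h4 : (x : K) ^ (3 ^ k) = 1 := hg (by rw [h3, map_one])
    ext
    simpa using congrArg Subtype.val h4
  have hidx : N.index ∣ Nat.card (H ⧸ (P.subgroupOf H)) := by
    have : N.index = Nat.card φ.range := Subgroup.index_ker φ
    rw [this]
    exact Subgroup.card_subgroup_dvd_card _
  have hidx3 : ¬ 3 ∣ N.index := fun h => hQcard (h.trans hidx)
  have hcop : Nat.Coprime (Nat.card N) N.index := by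
    obtain ⟨k, hk⟩ := (IsPGroup.iff_card).1 hN3
    rw [hk]
    exact Nat.Coprime.pow_left _ ((Nat.Prime.coprime_iff_not_dvd Nat.prime_three).2 hidx3)
  obtain ⟨C, hC⟩ := Subgroup.exists_right_complement'_of_coprime hcop
  have hCcard : Nat.card C = N.index := by
    have := hC.symm.index_eq_card
    rw [this]
  have hCcyc : IsCyclic C := by
    apply isCyclic_of_injective (φ.comp C.subtype)
    rw [← MonoidHom.ker_eq_bot_iff, Subgroup.eq_bot_iff_forall]
    intro x hx
    rw [MonoidHom.mem_ker] at hx
    have h1 : (x : K) ∈ N := hx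
    have h2 := Subgroup.disjoint_def.1 hC.disjoint h1 x.2
    exact Subtype.ext h2
  obtain ⟨z, hz⟩ := hCcyc.exists_generator
  refine ⟨N.map K.subtype, ((z : K) : E), ?_, ?_, ?_, ?_, ?_, ?_⟩
  · rintro _ ⟨x, _, rfl⟩
    exact x.2
  · exact (z : K).2
  · exact hN3.map _
  · rintro x hx _ ⟨n, hn, rfl⟩
    refine ⟨(⟨x, hx⟩ : K) * n * (⟨x, hx⟩ : K)⁻¹, ?_, by simp⟩
    exact (inferInstance : N.Normal).conj_mem n hn _
  · have h1 : orderOf ((z : K) : E) = orderOf z := by
      rw [Subgroup.orderOf_coe, Subgroup.orderOf_coe]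
    rw [h1]
    intro h
    apply hidx3
    rw [← hCcard]
    exact h.trans (orderOf_dvd_natCard z)
  · intro x hx
    obtain ⟨⟨n, y⟩, hny⟩ := hC.2 (⟨x, hx⟩ : K)
    have hny' : (n : K) * (y : K) = ⟨x, hx⟩ := hny
    obtain ⟨m, hm⟩ := mem_powers_iff_mem_zpowers.2 (hz y)
    refine ⟨((n : K) : E), ⟨n, n.2, rfl⟩, m, ?_⟩
    have h1 : (y : K) = (z : K) ^ m := by
      rw [← hm]; rfl
    rw [h1] at hny'
    have := congrArg Subtype.val hny'
    simpa using this.symm

lemma M3_S (L : Type) [Group L] [Finite L] (B : Subgroup L) (t : L) (ht : t * t = 1) (htB : t ∉ B)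
    (hinv : ∀ b ∈ B, t * b * t⁻¹ = b⁻¹) :
    ∃ S : Subgroup L, (∀ x, x ∈ S ↔ x ∈ B ∨ x * t ∈ B) ∧ Nat.card S = 2 * Nat.card B := by
  have hti : t⁻¹ = t := inv_eq_of_mul_eq_one_left ht
  rw [hti] at hinv
  let S : Subgroup L :=
    { carrier := {x | x ∈ B ∨ x * t ∈ B}
      one_mem' := Or.inl B.one_mem
      mul_mem' := by
        rintro x y (hx | hx) (hy | hy)
        · exact Or.inl (B.mul_mem hx hy)
        · right
          rw [mul_assoc]; exact B.mul_mem hx hy
        · right
          have h1 : x * y * t = (x * t) * (t * y * t) := by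
            have : (x * t) * (t * y * t) = x * (t * t) * y * t := by group
            rw [this, ht, mul_one]
          rw [h1, hinv y hy]
          exact B.mul_mem hx (B.inv_mem hy)
        · left
          have h1 : x * y = (x * t) * (t * (y * t) * t) := by
            have : (x * t) * (t * (y * t) * t) = x * (t * t) * y * (t * t) := by group
            rw [this, ht, mul_one, mul_one]
          rw [h1, hinv _ hy]
          exact B.mul_mem hx (B.inv_mem hy)
      inv_mem' := by
        rintro x (hx | hx)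
        · exact Or.inl (B.inv_mem hx)
        · right
          have h1 : x⁻¹ * t = t * (x * t)⁻¹ * t := by
            rw [mul_inv_rev, hti]
            have : t * (t * x⁻¹) * t = (t * t) * x⁻¹ * t := by group
            rw [this, ht, one_mul]
          rw [h1, hinv _ (B.inv_mem hx), inv_inv]
          exact hx }
  refine ⟨S, fun x => Iff.rfl, ?_⟩
  have h1 : (S : Set L) = (B : Set L) ∪ (fun x => x * t) '' (B : Set L) := by
    ext x
    constructor
    · rintro (hx | hx)
      · exact Or.inl hx
      · right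
        refine ⟨x * t, hx, ?_⟩
        show x * t * t = x
        rw [mul_assoc, ht, mul_one]
    · rintro (hx | ⟨y, hy, rfl⟩)
      · exact Or.inl hx
      · right
        show y * t * t ∈ B
        rw [mul_assoc, ht, mul_one]; exact hy
  have h2 : Disjoint (B : Set L) ((fun x => x * t) '' (B : Set L)) := by
    rw [Set.disjoint_left]
    rintro x hx ⟨y, hy, rfl⟩
    apply htB
    have := B.mul_mem (B.inv_mem hy) hx
    simpa using this
  have h3 : Nat.card S = (S : Set L).ncard := rfl
  have h4 : Nat.card B = (B : Set L).ncard := rfl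
  rw [h3, h4, h1, Set.ncard_union_eq h2 (Set.toFinite _) (Set.toFinite _),
    Set.ncard_image_of_injective _ (mul_left_injective t)]
  ring

lemma M3_dvd (L : Type) [Group L] [Finite L] (M E B : Subgroup L) (hE : E ≤ M) (hB : B ≤ M)
    (hn : ∀ g ∈ M, ∀ x ∈ E, g * x * g⁻¹ ∈ E) :
    Nat.card B * Nat.card E ∣ Nat.card L * Nat.card (B ⊓ E : Subgroup L) := by
  have hN : (E.subgroupOf M).Normal := by
    constructor
    rintro ⟨n, hn1⟩ hn2 ⟨g, hg⟩
    rw [Subgroup.mem_subgroupOf] at hn2 ⊢
    exact hn g hg n hn2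
  have h1 : (E.subgroupOf M).relIndex (B.subgroupOf M) ∣ (E.subgroupOf M).index :=
    Subgroup.relIndex_dvd_index_of_normal _ _
  rw [Subgroup.relIndex_subgroupOf hB] at h1
  have h2 : Nat.card (B ⊓ E : Subgroup L) * E.relIndex B = Nat.card B := by
    have := Subgroup.relIndex_mul_relIndex (⊥ : Subgroup L) (E ⊓ B) B bot_le inf_le_right
    rw [Subgroup.relIndex_bot_left, Subgroup.relIndex_bot_left, Subgroup.inf_relIndex_right] at this
    rw [inf_comm]
    exact this
  have h3 : Nat.card E * (E.subgroupOf M).index = Nat.card M := by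
    have := Subgroup.relIndex_mul_relIndex (⊥ : Subgroup L) E M bot_le hE
    rw [Subgroup.relIndex_bot_left, Subgroup.relIndex_bot_left] at this
    exact this
  have h4 : Nat.card M ∣ Nat.card L := Subgroup.card_subgroup_dvd_card M
  obtain ⟨k, hk⟩ := h1
  obtain ⟨l, hl⟩ := h4
  refine ⟨k * l, ?_⟩
  rw [hl, ← h3, hk, ← h2]
  ring

/-- the stabiliser in a subgroup divides -/
lemma M3_stab_dvd (L Ω : Type) [Group L] [MulAction L Ω] [Finite L] (M : Subgroup L) (α : Ω) :
    Nat.card (MulAction.stabilizer M α) ∣ Nat.card (MulAction.stabilizer L α) := by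
  let f : MulAction.stabilizer M α →* MulAction.stabilizer L α :=
    { toFun := fun x => ⟨((x : M) : L), x.2⟩
      map_one' := rfl
      map_mul' := fun _ _ => rfl }
  apply Subgroup.card_dvd_of_injective f
  intro x y h
  have h1 : ((x : M) : L) = ((y : M) : L) :=
    congrArg (fun z : MulAction.stabilizer L α => (z : L)) h
  exact Subtype.ext (Subtype.ext h1)

/-- a subgroup whose order is divisible by the number of points is transitive, if the stabilisers
have order prime to the number of points -/
lemma M3_trans (L Ω : Type) [Group L] [MulAction L Ω] [Finite L] [Finite Ω] (M : Subgroup L) (α : Ω)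
    (hc : Nat.Coprime (Nat.card (MulAction.stabilizer L α)) (Nat.card Ω))
    (hd : Nat.card Ω ∣ Nat.card M) : MulAction.orbit M α = Set.univ := by
  have h1 := M3_orbstab M Ω α
  have h2 : Nat.Coprime (Nat.card Ω) (Nat.card (MulAction.stabilizer M α)) :=
    (hc.coprime_dvd_left (M3_stab_dvd L Ω M α)).symm
  rw [← h1] at hd
  have h3 := h2.dvd_of_dvd_mul_right hd
  have h4 : Nat.card Ω ≤ Nat.card (MulAction.orbit M α) := by
    apply Nat.le_of_dvd _ h3
    have : Nonempty (MulAction.orbit M α) := ⟨⟨α, MulAction.mem_orbit_self α⟩⟩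
    exact Nat.card_pos
  have h5 : (MulAction.orbit M α).ncard = Nat.card (MulAction.orbit M α) := rfl
  apply Set.eq_of_subset_of_ncard_le (Set.subset_univ _) _ (Set.toFinite _)
  rw [Set.ncard_univ, h5]
  exact h4

/-- orbits of a normalised subgroup of a transitive group -/
lemma M3_orb_dvd (L Ω : Type) [Group L] [MulAction L Ω] [Finite L] [Finite Ω] (M E : Subgroup L)
    (hE : E ≤ M) (hn : ∀ g ∈ M, ∀ x ∈ E, g * x * g⁻¹ ∈ E)
    (ht : ∀ α : Ω, MulAction.orbit M α = Set.univ) (α : Ω) :
    Nat.card (MulAction.orbit E α) ∣ Nat.card Ω := by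
  have hN : (E.subgroupOf M).Normal := by
    constructor
    rintro ⟨n, hn1⟩ hn2 ⟨g, hg⟩
    rw [Subgroup.mem_subgroupOf] at hn2 ⊢
    exact hn g hg n hn2
  have hT : MulAction.IsPretransitive M Ω := by
    constructor
    intro x y
    have : y ∈ MulAction.orbit M x := by rw [ht x]; trivial
    obtain ⟨g, hg⟩ := this
    exact ⟨g, hg⟩
  have h1 : MulAction.IsBlock M (MulAction.orbit (E.subgroupOf M) α) :=
    MulAction.IsBlock.orbit_of_normal α
  have h2 := h1.ncard_dvd_card ⟨α, MulAction.mem_orbit_self α⟩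
  have h3 : MulAction.orbit (E.subgroupOf M) α = MulAction.orbit E α := by
    ext β
    constructor
    · rintro ⟨x, rfl⟩
      exact ⟨⟨((x : M) : L), Subgroup.mem_subgroupOf.1 x.2⟩, rfl⟩
    · rintro ⟨x, rfl⟩
      exact ⟨⟨⟨(x : L), hE x.2⟩, by rw [Subgroup.mem_subgroupOf]; exact x.2⟩, rfl⟩
  rw [h3] at h2
  exact h2

theorem M3 (hTC : TC_stmt) (hAB : AB_stmt) : M3_stmt := by
  intro L Ω _ _ A t ρ hL hD hρ hρp htρ E hEρ hEn hEs hEe α
  have := hL.finL
  have := hL.finΩ
  have hLs := hL.simple
  have hfa := hL.faithful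
  have hLt := hL.trans
  have := hEs.1
  obtain ⟨hAo, hA2, hAcard, hAodd, ⟨n, hAn⟩, hAoc, hA2c, -, -, -⟩ := hAB L A hL.cyc
  have hAcomm : ∀ a ∈ A, ∀ b ∈ A, a * b = b * a := by
    intro a ha b hb
    have h1 := hL.cyc
    have : IsMulCommutative A := h1.isMulCommutative
    have := mul_comm' (⟨a, ha⟩ : A) ⟨b, hb⟩
    exact congrArg Subtype.val this
  have hρA : ρ ∈ A := ((hAo ρ).1 hρ).1
  have h2A : twoPart A ≤ A := fun x hx => ((hA2 x).1 hx).1
  -- the dihedral 2-group
  obtain ⟨ht1, ht2, ht3⟩ := hD
  obtain ⟨S, hS, hScard⟩ := M3_S L (twoPart A) t ht1 (fun h => ht2 (h2A h))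
    (fun b hb => ht3 b ((hA2 b).1 hb).1 ((hA2 b).1 hb).2)
  -- the centraliser
  let M : Subgroup L := Subgroup.centralizer ({ρ} : Set L)
  have hM : ∀ g : L, g ∈ M ↔ g * ρ = ρ * g := by
    intro g
    rw [Subgroup.mem_centralizer_iff]
    constructor
    · intro h
      exact (h ρ rfl).symm
    · rintro h x rfl
      exact h.symm
  have hAM : A ≤ M := fun a ha => (hM a).2 (hAcomm a ha ρ hρA)
  have htM : t ∈ M := (hM t).2 htρ
  have hSM : S ≤ M := by
    intro x hx
    rcases (hS x).1 hx with h | h
    · exact hAM (h2A h)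
    · have h1 := M.mul_mem (hAM (h2A h)) (M.inv_mem htM)
      simpa using h1
  have hEM : E ≤ M := fun x hx => (hM x).2 (hEρ x hx)
  have hEnM : ∀ g ∈ M, ∀ x ∈ E, g * x * g⁻¹ ∈ E := fun g hg => hEn g ((hM g).1 hg)
  have hΩ : Nat.card Ω = Nat.card (oddPart A) * Nat.card S := by
    rw [← hL.cardA, ← hAcard, hScard]; ring
  have hScard2 : Nat.card S = 2 ^ (n + 1) := by rw [hScard, hAn]; ring
  have hcop1 : Nat.Coprime (Nat.card (oddPart A)) (Nat.card S) := by
    rw [hScard2]
    exact Nat.Coprime.pow_right _ (Nat.coprime_two_right.2 hAodd)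
  have hΩM : Nat.card Ω ∣ Nat.card M := by
    rw [hΩ]
    apply hcop1.mul_dvd_of_dvd_of_dvd
    · exact (Dvd.intro _ hAcard).trans (Subgroup.card_dvd_of_le hAM)
    · exact Subgroup.card_dvd_of_le hSM
  have hMt : ∀ β : Ω, MulAction.orbit M β = Set.univ := fun β =>
    M3_trans L Ω M β (hL.copr β) hΩM
  -- numbers
  have hm_dvd := M3_orb_dvd L Ω M E hEM hEnM hMt α
  have hms := M3_orbstab E Ω α
  have hLcard : Nat.card Ω * Nat.card (MulAction.stabilizer L α) = Nat.card L := by
    have h1 := M3_orbstab L Ω α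
    have h2 : MulAction.orbit L α = Set.univ := MulAction.orbit_eq_univ L α
    rw [h2] at h1
    rw [← h1]
    congr 1
    exact (Nat.card_congr (Equiv.Set.univ Ω)).symm
  have hsc : Nat.Coprime (Nat.card (MulAction.stabilizer E α)) (Nat.card Ω) :=
    (hL.copr α).coprime_dvd_left (M3_stab_dvd L Ω E α)
  have hAΩ : Nat.card A ∣ Nat.card Ω := Dvd.intro_left _ hL.cardA
  have ha_eq : Nat.card (A.subgroupOf E) = Nat.card (A ⊓ E : Subgroup L) := by
    rw [← Subgroup.inf_subgroupOf_right]
    exact Nat.card_congr (Subgroup.subgroupOfEquivOfLe inf_le_right).toEquiv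
  have haA : Nat.card (A.subgroupOf E) ∣ Nat.card A := by
    rw [ha_eq]; exact Subgroup.card_dvd_of_le inf_le_left
  set m := Nat.card (MulAction.orbit E α) with hm
  set s := Nat.card (MulAction.stabilizer E α) with hs
  set a := Nat.card (A.subgroupOf E) with ha
  have h2Ω : 2 ∣ Nat.card Ω := (by norm_num : 2 ∣ 4).trans hL.four
  have hsodd : ¬ 2 ∣ s := by
    intro h
    have h1 : (2 : ℕ) ∣ Nat.gcd s (Nat.card Ω) := Nat.dvd_gcd h h2Ω
    rw [hsc] at h1
    omega
  have hLodd : ¬ 2 ∣ Nat.card (MulAction.stabilizer L α) := by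
    intro h
    have h1 : (2 : ℕ) ∣ Nat.gcd (Nat.card (MulAction.stabilizer L α)) (Nat.card Ω) :=
      Nat.dvd_gcd h h2Ω
    rw [hL.copr α] at h1
    omega
  have hapos : 0 < a := Nat.card_pos
  have hspos : 0 < s := Nat.card_pos
  have hLpos : 0 < Nat.card (MulAction.stabilizer L α) := Nat.card_pos
  have hApos : 0 < Nat.card A := Nat.card_pos
  have haE : a ∣ m := by
    have h1 : a ∣ m * s := by
      rw [hms]; exact Subgroup.card_subgroup_dvd_card _
    have h2 : Nat.Coprime a s := (hsc.coprime_dvd_right (haA.trans hAΩ)).symm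
    exact h2.dvd_of_dvd_mul_right h1
  obtain ⟨m', hm'⟩ := haE
  have hkey := M3_dvd L M E A hEM hAM hEnM
  rw [← ha_eq, ← hms, hm', ← hLcard, ← hL.cardA] at hkey
  have hm'2 : m' ∣ 2 := by
    have h1 : (Nat.card A * a) * (m' * s) ∣
        (Nat.card A * a) * (2 * Nat.card (MulAction.stabilizer L α)) := by
      have e1 : (Nat.card A * a) * (m' * s) = Nat.card A * (a * m' * s) := by ring
      have e2 : (Nat.card A * a) * (2 * Nat.card (MulAction.stabilizer L α)) =
          2 * Nat.card A * Nat.card (MulAction.stabilizer L α) * a := by ring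
      rw [e1, e2]; exact hkey
    have h2 := Nat.dvd_of_mul_dvd_mul_left (Nat.mul_pos hApos hapos) h1
    have h3 : m' ∣ 2 * Nat.card (MulAction.stabilizer L α) := (Dvd.intro _ rfl).trans h2
    have h4 : Nat.Coprime m' (Nat.card (MulAction.stabilizer L α)) := by
      have : m' ∣ Nat.card Ω := (Dvd.intro_left a hm'.symm).trans hm_dvd
      exact ((hL.copr α).coprime_dvd_right this).symm
    exact h4.dvd_of_dvd_mul_right h3
  have hacyc : IsCyclic (A.subgroupOf E) := by
    have h1 := hL.cyc
    let f : A.subgroupOf E →* A :=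
      { toFun := fun x => ⟨((x : E) : L), Subgroup.mem_subgroupOf.1 x.2⟩
        map_one' := rfl
        map_mul' := fun _ _ => rfl }
    apply isCyclic_of_injective f
    intro x y h
    have h2 : ((x : E) : L) = ((y : E) : L) := congrArg (fun z : A => (z : L)) h
    exact Subtype.ext (Subtype.ext h2)
  have hma : m = 2 * a := by
    rcases (Nat.dvd_prime Nat.prime_two).1 hm'2 with h | h
    · exfalso
      apply M3_cyc hTC E hEs hEe (A.subgroupOf E) hacyc
      have h1 : a * (A.subgroupOf E).index = a * s := by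
        rw [Subgroup.card_mul_index, ← hms, hm', h, mul_one]
      rw [Nat.eq_of_mul_eq_mul_left hapos h1]
      exact hsodd
    · rw [hm', h]; ring
  have hfour : 4 ∣ m := by
    by_contra hcon
    have ha2 : ¬ 2 ∣ a := by
      intro h
      apply hcon
      rw [hma]
      obtain ⟨k, hk⟩ := h
      exact ⟨k, by rw [hk]; ring⟩
    obtain ⟨x, hx⟩ := exists_prime_orderOf_dvd_card' (G := E) 2 hEe.two_dvd
    apply M3_cyc hTC E hEs hEe (Subgroup.zpowers x) inferInstance
    have h1 : 2 * (Subgroup.zpowers x).index = 2 * (a * s) := by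
      have h2 := Subgroup.card_mul_index (Subgroup.zpowers x)
      rw [Nat.card_zpowers, hx, ← hms, hma] at h2
      rw [h2]; ring
    rw [Nat.eq_of_mul_eq_mul_left (by norm_num) h1]
    intro h
    rcases (Nat.Prime.dvd_mul Nat.prime_two).1 h with h | h
    · exact ha2 h
    · exact hsodd h
  have hdih : ∃ u : E, u * u = 1 ∧ u ∉ A.subgroupOf E ∧
      ∀ a ∈ A.subgroupOf E, (∃ n : ℕ, a ^ (2 ^ n) = 1) → u * a * u⁻¹ = a⁻¹ := by
    have hk2 := M3_dvd L M E S hEM hSM hEnM
    have hse : Nat.card (S.subgroupOf E) = Nat.card (S ⊓ E : Subgroup L) := by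
      rw [← Subgroup.inf_subgroupOf_right]
      exact Nat.card_congr (Subgroup.subgroupOfEquivOfLe inf_le_right).toEquiv
    have hidx : ¬ 2 ∣ (S.subgroupOf E).index := by
      have h1 := Subgroup.card_mul_index (S.subgroupOf E)
      rw [← hse, ← hLcard, hΩ, ← h1] at hk2
      have h2 : (Nat.card S * Nat.card (S.subgroupOf E)) * (S.subgroupOf E).index ∣
          (Nat.card S * Nat.card (S.subgroupOf E)) *
            (Nat.card (oddPart A) * Nat.card (MulAction.stabilizer L α)) := by
        have e1 : (Nat.card S * Nat.card (S.subgroupOf E)) * (S.subgroupOf E).index =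
          Nat.card S * (Nat.card (S.subgroupOf E) * (S.subgroupOf E).index) := by ring
        have e2 : (Nat.card S * Nat.card (S.subgroupOf E)) *
            (Nat.card (oddPart A) * Nat.card (MulAction.stabilizer L α)) =
          Nat.card (oddPart A) * Nat.card S * Nat.card (MulAction.stabilizer L α) *
            Nat.card (S.subgroupOf E) := by ring
        rw [e1, e2]; exact hk2
      have h3 := Nat.dvd_of_mul_dvd_mul_left (Nat.mul_pos Nat.card_pos Nat.card_pos) h2
      intro h4
      rcases (Nat.Prime.dvd_mul Nat.prime_two).1 (h4.trans h3) with h | h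
      · exact (Nat.not_even_iff_odd.2 hAodd) (even_iff_two_dvd.2 h)
      · exact hLodd h
    have hex : ∃ u ∈ S.subgroupOf E, u ∉ A.subgroupOf E := by
      by_contra hcon
      push Not at hcon
      apply M3_cyc hTC E hEs hEe (S.subgroupOf E) _ hidx
      exact isCyclic_of_injective (Subgroup.inclusion (fun x hx => hcon x hx))
        (Subgroup.inclusion_injective _)
    obtain ⟨u, hu, huA⟩ := hex
    have hut : (u : L) * t ∈ twoPart A := by
      rcases (hS u).1 (Subgroup.mem_subgroupOf.1 hu) with h | h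
      · exact absurd (Subgroup.mem_subgroupOf.2 (h2A h)) huA
      · exact h
    have hti : t⁻¹ = t := inv_eq_of_mul_eq_one_left ht1
    have hb2 := (hA2 _).1 hut
    have hbi := ht3 _ hb2.1 hb2.2
    have huu : (u : L) * u = 1 := by
      have h1 : (u : L) * u = ((u : L) * t) * (t * ((u : L) * t) * t⁻¹) := by
        rw [hti]
        have : ((u : L) * t) * (t * ((u : L) * t) * t) = u * (t * t) * u * (t * t) := by group
        rw [this, ht1, mul_one, mul_one]
      rw [h1, hbi, mul_inv_cancel]
    refine ⟨u, Subtype.ext (by simpa using huu), huA, ?_⟩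
    intro x hx ⟨k, hk⟩
    have hxA : (x : L) ∈ A := Subgroup.mem_subgroupOf.1 hx
    have hx2 := ht3 x hxA ⟨k, by simpa using congrArg Subtype.val hk⟩
    ext
    push_cast
    have h1 : (u : L) * x * (u : L)⁻¹ = (u * t) * (t * x * t⁻¹) * (u * t)⁻¹ := by
      rw [hti, mul_inv_rev, hti]
      have : (u * t) * (t * (x : L) * t) * (t * (u : L)⁻¹) =
        u * (t * t) * x * (t * t) * (u : L)⁻¹ := by group
      rw [this, ht1, mul_one, mul_one]
    rw [h1, hx2, hAcomm _ hb2.1 _ (A.inv_mem hxA), mul_assoc, mul_inv_cancel, mul_one]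
  constructor
  · refine
      { finL := inferInstance
        finΩ := inferInstance
        faithful := ?_
        trans := inferInstance
        simple := hEs.1
        nonab := hEs.2
        four := hfour
        three := fun h => hL.three (h.trans hm_dvd)
        copr := ?_
        stab := ?_
        cyc := hacyc
        cardA := hma.symm
        semireg := ?_
        dih := hdih }
    · let K : Subgroup E := (MulAction.toPermHom E (MulAction.orbit E α)).ker
      rcases (inferInstance : K.Normal).eq_bot_or_eq_top with h | h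
      · constructor
        intro x y hxy
        have h1 : x * y⁻¹ ∈ K := by
          rw [MonoidHom.mem_ker]
          ext β
          have := hxy (y⁻¹ • β)
          rw [smul_inv_smul] at this
          show (((x * y⁻¹) • β : MulAction.orbit E α) : Ω) = β
          rw [mul_smul, this]
        rw [h, Subgroup.mem_bot] at h1
        exact mul_inv_eq_one.1 h1
      · exfalso
        have h1 : ∀ β : MulAction.orbit E α, β = ⟨α, MulAction.mem_orbit_self α⟩ := by
          rintro ⟨β, x, rfl⟩
          have hx : x ∈ K := by rw [h]; trivial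
          rw [MonoidHom.mem_ker] at hx
          have := congrArg (fun f => f (⟨α, MulAction.mem_orbit_self α⟩ : MulAction.orbit E α)) hx
          exact this
        have h2 : m ≤ 1 := by
          rw [hm]
          have : Subsingleton (MulAction.orbit E α) := ⟨fun x y => by rw [h1 x, h1 y]⟩
          exact Finite.card_le_one_iff_subsingleton.2 this
        omega
    · rintro ⟨β, hβ⟩
      have h1 : Nat.card (MulAction.stabilizer E (⟨β, hβ⟩ : MulAction.orbit E α)) =
          Nat.card (MulAction.stabilizer E β) := by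
        apply Nat.card_congr
        refine Equiv.subtypeEquivRight ?_
        intro x
        rw [MulAction.mem_stabilizer_iff, MulAction.mem_stabilizer_iff]
        exact Subtype.ext_iff
      rw [h1]
      exact ((hL.copr β).coprime_dvd_left (M3_stab_dvd L Ω E β)).coprime_dvd_right hm_dvd
    · rintro ⟨β, hβ⟩
      apply M3_threeCyc L (MulAction.stabilizer L β) (hL.stab β) E E.subtype
        (Subgroup.subtype_injective E)
      intro x hx
      rw [MulAction.mem_stabilizer_iff] at hx ⊢
      exact congrArg Subtype.val hx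
    · intro x hx β hβ
      have h1 : (x : L) • (β : Ω) = β := congrArg Subtype.val hβ
      exact Subtype.ext (hL.semireg x (Subgroup.mem_subgroupOf.1 hx) β h1)
  · by_contra hcon
    push Not at hcon
    have hET : E = ⊤ := Subgroup.eq_top_of_le_card _ hcon
    have hρ1 : ρ ≠ 1 := by
      rintro rfl
      rw [orderOf_one] at hρp
      exact Nat.not_prime_one hρp
    have hρc : ρ ∈ Subgroup.center L := by
      rw [Subgroup.mem_center_iff]
      intro g
      exact hEρ g (by rw [hET]; trivial)
    rcases (inferInstance : (Subgroup.center L).Normal).eq_bot_or_eq_top with h | h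
    · rw [h, Subgroup.mem_bot] at hρc
      exact hρ1 hρc
    · obtain ⟨x, y, hxy⟩ := hL.nonab
      apply hxy
      have : y ∈ Subgroup.center L := by rw [h]; trivial
      exact (Subgroup.mem_center_iff.1 this x)

end Pool.Agent.helper53.AU
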